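import Pool.Agent.Lib.MP_cf3da8_lc.Transfer

/-!
The asymmetric polarized relation `(lam⁺, lam) → (lam⁺ α; lam lam)` at a singular cardinal with
`2 ^ lam = lam⁺`: for which `α` does it hold?
-/

set_option autoImplicit false

open Cardinal Order Set Ordinal

universe u

namespace Pool.Agent.Results.MP_cf3da8_lc.SharpThreshold

open Pool.Agent.Lib.MP_cf3da8_lc

/-- Let `lam` be a singular cardinal with `2 ^ lam = lam⁺`.
(1) If `cf lam` is uncountable, then the relation holds if and only if `α` is finite.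
(2) If `cf lam = ℵ₀` and `lam` is a strong limit, then it holds for all `α < ω₁` and fails for all
`α ≥ (2 ^ ℵ₀)⁺`.
(3) In particular, it fails for some `α < lam⁺` if `lam` is a limit of measurable cardinals. -/
theorem result (lam : Cardinal.{u}) (hsing : lam.IsSingular) (hpow : 2 ^ lam = succ lam) :
    (ℵ₀ < lam.ord.cof → ∀ α : Ordinal.{u},
      (Polarized (succ lam) lam (succ lam).ord α lam.ord lam.ord ↔ α < ω)) ∧
    (lam.ord.cof = ℵ₀ → (∀ μ < lam, 2 ^ μ < lam) →
      (∀ α < (succ (ℵ₀ : Cardinal.{u})).ord,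
        Polarized (succ lam) lam (succ lam).ord α lam.ord lam.ord) ∧
      ∀ α : Ordinal.{u}, (succ ((2 : Cardinal.{u}) ^ (ℵ₀ : Cardinal.{u}))).ord ≤ α →
        ¬ Polarized (succ lam) lam (succ lam).ord α lam.ord lam.ord) ∧
    ((∀ μ < lam, ∃ κ, μ < κ ∧ κ < lam ∧ IsMeasurable κ) →
      ∃ α < (succ lam).ord, ¬ Polarized (succ lam) lam (succ lam).ord α lam.ord lam.ord) := by
  have hinf : ℵ₀ ≤ lam := hsing.aleph0_le
  have hcofle : ℵ₀ ≤ lam.ord.cof := by
    rw [Ordinal.aleph0_le_cof_iff, Ordinal.one_lt_cof_iff]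
    exact isSuccLimit_ord hinf
  have part1 : ℵ₀ < lam.ord.cof → ∀ α : Ordinal.{u},
      (Polarized (succ lam) lam (succ lam).ord α lam.ord lam.ord ↔ α < ω) := by
    intro hcof α
    constructor
    · intro hpol
      by_contra hα
      obtain ⟨X, hX1, hX2⟩ := construction2 hsing hpow hcof
      refine not_polarized hinf hX1 (α := α) (fun A hA => hX2 A ?_) hpol
      rw [← Set.infinite_coe_iff, ← aleph0_le_mk_iff, hA]
      have h1 := Ordinal.card_le_card (not_lt.1 hα)
      rwa [card_omega0] at h1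
    · exact polarized_finite hinf
  have part2 : lam.ord.cof = ℵ₀ → 2 ^ (ℵ₀ : Cardinal.{u}) < lam →
      ∀ α : Ordinal.{u}, (succ ((2 : Cardinal.{u}) ^ (ℵ₀ : Cardinal.{u}))).ord ≤ α →
        ¬ Polarized (succ lam) lam (succ lam).ord α lam.ord lam.ord := by
    intro hcof hlt α hα
    obtain ⟨X, hX1, hX2⟩ := construction hsing hpow (by rw [hcof]; exact hlt)
    refine not_polarized hinf hX1 (α := α) (fun A hA => hX2 A ?_)
    rw [hcof, hA]
    have h1 := Ordinal.card_le_card hα
    rwa [card_ord] at h1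
  have hunc : lam.ord.cof = ℵ₀ → ℵ₀ < lam := by
    intro hcof
    rw [← hcof]
    exact hsing.cof_ord_lt
  refine ⟨part1, fun hcof hstrong => ⟨fun α hα => ?_, part2 hcof (hstrong _ (hunc hcof))⟩, ?_⟩
  · exact polarized_countable (hunc hcof) hcof hstrong hα
  · intro hlim
    rcases eq_or_lt_of_le hcofle with hcof | hcof
    · obtain ⟨κ, h1, h2, h3⟩ := hlim _ (hunc hcof.symm)
      have hlt : 2 ^ (ℵ₀ : Cardinal.{u}) < lam := (h3.two_power_lt h1).trans h2
      refine ⟨_, ?_, part2 hcof.symm hlt _ le_rfl⟩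
      rw [ord_lt_ord]
      exact lt_of_le_of_lt (succ_le_of_lt hlt) (lt_succ lam)
    · refine ⟨ω, ?_, fun h => lt_irrefl _ ((part1 hcof ω).1 h)⟩
      rw [← ord_aleph0, ord_lt_ord]
      exact lt_of_le_of_lt hinf (lt_succ lam)

end Pool.Agent.Results.MP_cf3da8_lc.SharpThreshold
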